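import Mathlib

/-! The discriminant of a quadratic field (adapted from the seed `H38R2.CG.N0d`, for all integers). -/

set_option autoImplicit false

namespace Q263.CN

open NumberField Module

theorem not_sq {d : ℤ} (hd : d ≠ 1) (hs : Squarefree d) (q : ℚ) : q ^ 2 ≠ d := by
  intro h
  have h1 : IsSquare (d : ℚ) := ⟨q, by rw [← h, sq]⟩
  rw [Rat.isSquare_intCast_iff] at h1
  obtain ⟨m, hm⟩ := h1
  have h2 := hs m ⟨1, by rw [mul_one]; exact hm⟩
  rw [Int.isUnit_iff] at h2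
  rcases h2 with h2 | h2 <;> rw [h2] at hm <;> omega

variable {K : Type*} [Field K] [NumberField K]

theorem exists_basis {d : ℤ} (hd : d ≠ 1) (hs : Squarefree d) (h2 : finrank ℚ K = 2) (x : K)
    (hx : x ^ 2 = d) : ∃ b : Basis (Fin 2) ℚ K, b 0 = 1 ∧ b 1 = x := by
  have hli : LinearIndependent ℚ ![(1:K), x] := by
    rw [LinearIndependent.pair_iff]
    intro s t hst
    by_cases ht : t = 0
    · subst ht
      simp only [zero_smul, add_zero, smul_eq_zero, one_ne_zero, or_false] at hst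
      exact ⟨hst, rfl⟩
    · exfalso
      have htK : (t : K) ≠ 0 := by exact_mod_cast ht
      have h3 : x = ((-s / t : ℚ) : K) := by
        rw [Rat.smul_def, Rat.smul_def, mul_one] at hst
        push_cast
        rw [eq_div_iff htK]
        linear_combination hst
      rw [h3] at hx
      exact not_sq hd hs (-s / t) (by exact_mod_cast hx)
  refine ⟨basisOfLinearIndependentOfCardEqFinrank hli (by simp [h2]), ?_, ?_⟩ <;> simp

section
variable {d : ℤ} {x : K} (hx : x ^ 2 = d) (b : Basis (Fin 2) ℚ K) (h0 : b 0 = 1) (h1 : b 1 = x)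
include h0 h1

theorem repr_eq (p q : ℚ) : b.repr ((p:K) + q * x) 0 = p ∧ b.repr ((p:K) + q * x) 1 = q := by
  have h : (p:K) + q * x = p • b 0 + q • b 1 := by
    rw [h0, h1, Rat.smul_def, Rat.smul_def, mul_one]
  rw [h]
  simp

theorem ex_coord (α : K) : ∃ p q : ℚ, α = (p:K) + q * x := by
  refine ⟨b.repr α 0, b.repr α 1, ?_⟩
  have h := b.sum_repr α
  rw [Fin.sum_univ_two, h0, h1, Rat.smul_def, Rat.smul_def, mul_one] at h
  exact h.symm

include hx

theorem mat (p q : ℚ) : Algebra.leftMulMatrix b ((p:K) + q * x) = !![p, d * q; q, p] := by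
  have e0 : ((p:K) + q * x) * b 0 = (p:K) + q * x := by rw [h0, mul_one]
  have e1 : ((p:K) + q * x) * b 1 = ((d * q : ℚ) : K) + p * x := by
    rw [h1]
    push_cast
    linear_combination (q:K) * hx
  ext i j
  rw [Algebra.leftMulMatrix_eq_repr_mul]
  fin_cases j
  · simp only [Fin.zero_eta, e0]
    fin_cases i
    · simpa using (repr_eq b h0 h1 p q).1
    · simpa using (repr_eq b h0 h1 p q).2
  · simp only [Fin.mk_one, e1]
    fin_cases i
    · simpa using (repr_eq b h0 h1 (d * q) p).1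
    · simpa using (repr_eq b h0 h1 (d * q) p).2

theorem tr (p q : ℚ) : Algebra.trace ℚ K ((p:K) + q * x) = 2 * p := by
  rw [Algebra.trace_eq_matrix_trace b, mat hx b h0 h1]
  simp [Matrix.trace, Fin.sum_univ_two]
  ring

theorem nm (p q : ℚ) : Algebra.norm ℚ ((p:K) + q * x) = p ^ 2 - d * q ^ 2 := by
  rw [Algebra.norm_eq_matrix_det b, mat hx b h0 h1, Matrix.det_fin_two]
  simp
  ring

theorem trZ (α : 𝓞 K) (p q : ℚ) (h : (α : K) = (p:K) + q * x) :
    (Algebra.trace ℤ (𝓞 K) α : ℚ) = 2 * p := by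
  rw [Algebra.coe_trace_int, h, tr hx b h0 h1]

theorem int_coord' (hs : Squarefree d) (α : 𝓞 K) : ∃ t s : ℤ,
    (α : K) = ((t / 2 : ℚ) : K) + ((s / 2 : ℚ) : K) * x ∧
      t ^ 2 - d * s ^ 2 = 4 * Algebra.norm ℤ α := by
  obtain ⟨p, q, h⟩ := ex_coord b h0 h1 (α : K)
  have ht := trZ hx b h0 h1 α p q h
  have hn : (Algebra.norm ℤ α : ℚ) = p ^ 2 - d * q ^ 2 := by
    rw [Algebra.coe_norm_int, h, nm hx b h0 h1]
  set t := Algebra.trace ℤ (𝓞 K) α
  set n := Algebra.norm ℤ α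
  have e1 : (d:ℚ) * (2 * q) ^ 2 = ((t ^ 2 - 4 * n : ℤ) : ℚ) := by
    push_cast
    rw [ht, hn]
    ring
  set r : ℚ := 2 * q with hr
  have e2 : (d:ℤ) * r.num ^ 2 = (t ^ 2 - 4 * n) * (r.den : ℤ) ^ 2 := by
    have hden : (r.den : ℚ) ≠ 0 := by exact_mod_cast r.den_ne_zero
    have e3 : (r.num : ℚ) = r * r.den := (Rat.mul_den_eq_num r).symm
    have e4 : (((d:ℤ) * r.num ^ 2 : ℤ) : ℚ) = (((t ^ 2 - 4 * n) * (r.den : ℤ) ^ 2 : ℤ) : ℚ) := by
      push_cast at e1 ⊢
      rw [e3]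
      linear_combination (r.den : ℚ) ^ 2 * e1
    exact_mod_cast e4
  have hcop : IsCoprime ((r.den : ℤ) ^ 2) (r.num ^ 2) := by
    apply IsCoprime.pow
    rw [Int.isCoprime_iff_gcd_eq_one]
    have := r.reduced
    rw [Nat.Coprime, Nat.gcd_comm] at this
    simpa [Int.gcd] using this
  have hdvd : (r.den : ℤ) ^ 2 ∣ (d:ℤ) := by
    apply hcop.dvd_of_dvd_mul_right
    rw [e2]
    exact Dvd.intro_left _ rfl
  have hdvd2 : (r.den : ℤ) * r.den ∣ d := by
    rw [← sq]
    exact hdvd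
  have hden : r.den = 1 := by
    have h5 := Int.isUnit_iff.1 (hs _ hdvd2)
    rcases h5 with h5 | h5
    · exact_mod_cast h5
    · omega
  have hrn : r = r.num := by
    conv_lhs => rw [← Rat.num_div_den r]
    rw [hden]
    simp
  refine ⟨t, r.num, ?_, ?_⟩
  · rw [h, ← hrn, hr, ht]
    congr 2
    · ring
    · congr 1
      ring
  · rw [hden] at e2
    push_cast at e2
    linarith

theorem int_coord (hs : Squarefree d) (α : 𝓞 K) : ∃ t s n : ℤ,
    (α : K) = ((t / 2 : ℚ) : K) + ((s / 2 : ℚ) : K) * x ∧ t ^ 2 - d * s ^ 2 = 4 * n := by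
  obtain ⟨t, s, h2, h3⟩ := int_coord' hx b h0 h1 hs α
  exact ⟨t, s, _, h2, h3⟩

end

theorem parity1 {d : ℤ} (hd : d % 4 = 1) {t s n : ℤ} (h : t ^ 2 - d * s ^ 2 = 4 * n) :
    ∃ m : ℤ, t = s + 2 * m := by
  obtain ⟨e, rfl⟩ : ∃ e, d = 4 * e + 1 := ⟨d / 4, by omega⟩
  have h2 : (t - s) * (t + s) = 2 * (2 * (n + e * s ^ 2)) := by
    linear_combination h
  have h3 : Even (t - s) := by
    have h4 : Even ((t - s) * (t + s)) := ⟨2 * (n + e * s ^ 2), by rw [h2]; ring⟩
    rcases Int.even_mul.1 h4 with h5 | h5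
    · exact h5
    · rw [Int.even_add, ← Int.even_sub] at h5
      exact h5
  obtain ⟨m, hm⟩ := h3
  exact ⟨m, by linarith⟩

theorem parity2 {d : ℤ} (hd : d % 4 = 2 ∨ d % 4 = 3) {t s n : ℤ}
    (h : t ^ 2 - d * s ^ 2 = 4 * n) : ∃ a b : ℤ, t = 2 * a ∧ s = 2 * b := by
  have h4 : (t ^ 2 - d * s ^ 2) % 4 = 0 := by
    rw [h]
    simp
  have hd' : (d : ℤ) % 4 = 2 ∨ (d : ℤ) % 4 = 3 := by omega
  have ht : t % 4 = 0 ∨ t % 4 = 1 ∨ t % 4 = 2 ∨ t % 4 = 3 := by omega
  have hs : s % 4 = 0 ∨ s % 4 = 1 ∨ s % 4 = 2 ∨ s % 4 = 3 := by omega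
  have h5 : (t % 4) ^ 2 % 4 - ((d:ℤ) % 4) * ((s % 4) ^ 2) % 4 ≡ 0 [ZMOD 4] := by
    have e1 : (t % 4) ^ 2 % 4 ≡ t ^ 2 [ZMOD 4] :=
      (Int.mod_modEq _ _).trans ((Int.mod_modEq _ _).pow 2)
    have e2 : ((d:ℤ) % 4) * ((s % 4) ^ 2) % 4 ≡ d * s ^ 2 [ZMOD 4] :=
      (Int.mod_modEq _ _).trans ((Int.mod_modEq _ _).mul ((Int.mod_modEq _ _).pow 2))
    refine (e1.sub e2).trans ?_
    exact h4
  have : t % 2 = 0 ∧ s % 2 = 0 := by
    rcases hd' with hd' | hd' <;> rcases ht with ht | ht | ht | ht <;>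
      rcases hs with hs | hs | hs | hs <;> rw [hd', ht, hs] at h5 <;>
      first
      | (exact absurd h5 (by decide))
      | (constructor <;> omega)
  obtain ⟨h6, h7⟩ := this
  exact ⟨t / 2, s / 2, by omega, by omega⟩

/-- discriminant from a generator -/
theorem discr_of {d : ℤ} {x : K} (hx : x ^ 2 = d)
    (b : Basis (Fin 2) ℚ K) (h0 : b 0 = 1) (h1 : b 1 = x) (ω : 𝓞 K) (p q : ℚ)
    (hω : (ω : K) = (p:K) + q * x) (hq : q ≠ 0)
    (hsp : ∀ α : 𝓞 K, ∃ m n : ℤ, α = m + n * ω) :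
    (discr K : ℚ) = 4 * d * q ^ 2 := by
  have hli : LinearIndependent ℤ ![(1 : 𝓞 K), ω] := by
    rw [LinearIndependent.pair_iff]
    intro s t hst
    have h2 : ((s • (1 : 𝓞 K) + t • ω : 𝓞 K) : K) = 0 := by rw [hst]; simp
    have h3 : (((s + t * p : ℚ) : K)) + ((t * q : ℚ) : K) * x = 0 := by
      rw [← h2]
      have hω' : algebraMap (𝓞 K) K ω = (p:K) + q * x := hω
      simp only [zsmul_eq_mul, mul_one, map_add, map_mul, map_intCast]
      rw [hω']
      push_cast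
      ring
    have h4 := repr_eq b h0 h1 (s + t * p) (t * q)
    rw [h3] at h4
    simp only [map_zero, Finsupp.coe_zero, Pi.zero_apply] at h4
    have h5 : (t : ℚ) = 0 := by
      rcases mul_eq_zero.1 h4.2.symm with h6 | h6
      · exact h6
      · exact absurd h6 hq
    have h6 : (s : ℚ) = 0 := by
      have := h4.1
      rw [h5] at this
      linarith
    exact ⟨by exact_mod_cast h6, by exact_mod_cast h5⟩
  have hsp' : ⊤ ≤ Submodule.span ℤ (Set.range ![(1 : 𝓞 K), ω]) := by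
    intro α _
    obtain ⟨m, n, h⟩ := hsp α
    have h2 : α = m • (1 : 𝓞 K) + n • ω := by
      rw [h]; simp
    rw [h2]
    exact Submodule.add_mem _ (Submodule.smul_mem _ _ (Submodule.subset_span ⟨0, rfl⟩))
      (Submodule.smul_mem _ _ (Submodule.subset_span ⟨1, rfl⟩))
  have h2 := discr_eq_discr K (Basis.mk hli hsp')
  rw [← h2, Basis.coe_mk, Algebra.discr_def, Matrix.det_fin_two]
  simp only [Algebra.traceMatrix_apply, Algebra.traceForm_apply, Matrix.cons_val_zero,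
    Matrix.cons_val_one, one_mul, mul_one]
  push_cast
  rw [trZ hx b h0 h1 ω p q hω, trZ hx b h0 h1 1 1 0 (by simp),
    trZ hx b h0 h1 (ω * ω) (p ^ 2 + d * q ^ 2) (2 * p * q) (by
      have hω' : algebraMap (𝓞 K) K ω = (p:K) + q * x := hω
      rw [RingOfIntegers.coe_eq_algebraMap, map_mul, hω']
      push_cast
      linear_combination (q:K) ^ 2 * hx)]
  ring


/-- **The discriminant of `ℚ(√d)`**, `d` squarefree. -/
theorem discr_quadratic {d : ℤ} (hd : d ≠ 1) (hs : Squarefree d) (h2 : finrank ℚ K = 2) (x : K)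
    (hx : x ^ 2 = d) : NumberField.discr K = if d % 4 = 1 then d else 4 * d := by
  obtain ⟨b, h0, h1⟩ := exists_basis hd hs h2 x hx
  have hd0 : d % 4 ≠ 0 := by
    intro h
    have h3 : (2 : ℤ) * 2 ∣ d := by omega
    have := Int.isUnit_iff.1 (hs 2 h3)
    omega
  split_ifs with hd1
  · obtain ⟨e, he⟩ : ∃ e : ℤ, d = 4 * e + 1 := ⟨d / 4, by omega⟩
    have h3 : (d : K) = 4 * (e : K) + 1 := by
      exact_mod_cast congrArg (Int.cast : ℤ → K) he
    have hint : IsIntegral ℤ ((1 + x) / 2 : K) := by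
      refine ⟨Polynomial.X ^ 2 - Polynomial.X - Polynomial.C (e : ℤ), ?_, ?_⟩
      · monicity!
      · rw [Polynomial.eval₂_sub, Polynomial.eval₂_sub, Polynomial.eval₂_pow, Polynomial.eval₂_X,
          Polynomial.eval₂_C, eq_intCast]
        rw [h3] at hx
        linear_combination (1 / 4 : K) * hx
    set ω : 𝓞 K := ⟨(1 + x) / 2, hint⟩ with hωdef
    have hω : (ω : K) = ((1 / 2 : ℚ) : K) + ((1 / 2 : ℚ) : K) * x := by
      show (1 + x) / 2 = _
      push_cast
      ring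
    have hω' : algebraMap (𝓞 K) K ω = ((1 / 2 : ℚ) : K) + ((1 / 2 : ℚ) : K) * x := hω
    have h3 := discr_of hx b h0 h1 ω (1 / 2) (1 / 2) hω (by norm_num) (by
      intro α
      obtain ⟨t, s, n, h4, h5⟩ := int_coord hx b h0 h1 hs α
      obtain ⟨m, rfl⟩ := parity1 hd1 h5
      refine ⟨m, s, ?_⟩
      apply RingOfIntegers.ext
      rw [h4]
      simp only [map_add, map_mul, map_intCast]
      rw [hω']
      push_cast
      ring)
    have h4 : (discr K : ℚ) = d := by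
      rw [h3]; ring
    exact_mod_cast h4
  · have hint : IsIntegral ℤ (x : K) := by
      refine ⟨Polynomial.X ^ 2 - Polynomial.C (d : ℤ), ?_, ?_⟩
      · monicity!
      · rw [Polynomial.eval₂_sub, Polynomial.eval₂_pow, Polynomial.eval₂_X,
          Polynomial.eval₂_C, hx]
        simp
    set ω : 𝓞 K := ⟨x, hint⟩ with hωdef
    have hω : (ω : K) = ((0 : ℚ) : K) + ((1 : ℚ) : K) * x := by
      show x = _
      push_cast
      ring
    have hω' : algebraMap (𝓞 K) K ω = ((0 : ℚ) : K) + ((1 : ℚ) : K) * x := hω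
    have h3 := discr_of hx b h0 h1 ω 0 1 hω (by norm_num) (by
      intro α
      obtain ⟨t, s, n, h4, h5⟩ := int_coord hx b h0 h1 hs α
      obtain ⟨a, c, rfl, rfl⟩ := parity2 (by omega) h5
      refine ⟨a, c, ?_⟩
      apply RingOfIntegers.ext
      rw [h4]
      simp only [map_add, map_mul, map_intCast]
      rw [hω']
      push_cast
      ring)
    have h4 : (discr K : ℚ) = 4 * d := by
      rw [h3]; ring
    exact_mod_cast h4

end Q263.CN
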