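import Mathlib
import Pool.Agent.H45.Lib.Ts3997aac3.Q263.CN.Disc

/-! Units, signature and residue of an imaginary quadratic field. -/

set_option autoImplicit false

namespace Q263.CN

open NumberField Module NumberField.InfinitePlace NumberField.Units

variable {K : Type*} [Field K] [NumberField K]

/-- the units are `±1` -/
theorem units_eq {d : ℤ} (hd : d < -3) (hs : Squarefree d) (h2 : finrank ℚ K = 2) (x : K)
    (hx : x ^ 2 = d) (u : (𝓞 K)ˣ) : u = 1 ∨ u = -1 := by
  obtain ⟨b, h0, h1⟩ := exists_basis (by omega) hs h2 x hx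
  obtain ⟨t, s, h3, h4⟩ := int_coord' hx b h0 h1 hs (u : 𝓞 K)
  have hd4 : d ≠ -4 := by
    rintro rfl
    have := Int.isUnit_iff.1 (hs 2 (by norm_num))
    omega
  have hn : IsUnit (Algebra.norm ℤ (u : 𝓞 K)) := u.isUnit.map _
  have hn1 : Algebra.norm ℤ (u : 𝓞 K) = 1 := by
    rcases Int.isUnit_iff.1 hn with h | h
    · exact h
    · rw [h] at h4
      nlinarith [sq_nonneg t, sq_nonneg s]
  rw [hn1] at h4
  have hs0 : s = 0 := by
    by_contra hne
    have h5 : 1 ≤ s ^ 2 := by
      have : 0 < s ^ 2 := by positivity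
      omega
    have h6 : d ≤ -5 := by omega
    nlinarith [sq_nonneg t]
  subst hs0
  have ht : t ^ 2 = 4 := by linarith
  have ht2 : (t - 2) * (t + 2) = 0 := by linarith
  rcases mul_eq_zero.1 ht2 with h | h
  · left
    have : t = 2 := by omega
    subst this
    ext
    rw [h3]
    push_cast
    simp
  · right
    have : t = -2 := by omega
    subst this
    ext
    rw [h3]
    push_cast
    simp

theorem torsionOrder_eq {d : ℤ} (hd : d < -3) (hs : Squarefree d) (h2 : finrank ℚ K = 2) (x : K)
    (hx : x ^ 2 = d) : torsionOrder K = 2 := by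
  classical
  have h1 : torsionOrder K ≤ 2 := by
    rw [torsionOrder]
    have hsub : ∀ u : torsion K, (u : (𝓞 K)ˣ) = 1 ∨ (u : (𝓞 K)ˣ) = -1 := fun u =>
      units_eq hd hs h2 x hx u
    let f : torsion K → Bool := fun u => decide ((u : (𝓞 K)ˣ) = 1)
    have hf : Function.Injective f := by
      intro u v huv
      simp only [f, decide_eq_decide] at huv
      apply Subtype.ext
      rcases hsub u with h | h
      · rw [h, huv.1 h]
      · rcases hsub v with h' | h'
        · rw [h', huv.2 h']
        · rw [h, h']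
    calc Nat.card (torsion K) ≤ Nat.card Bool := Nat.card_le_card_of_injective f hf
      _ = 2 := by simp
  have h3 := even_torsionOrder K
  have h4 := torsionOrder_pos K
  obtain ⟨k, hk⟩ := h3
  omega

omit [NumberField K] in
theorem not_real {d : ℤ} (hd : d < 0) (x : K) (hx : x ^ 2 = d) (w : InfinitePlace K) :
    w.IsComplex := by
  rw [isComplex_iff]
  intro hreal
  have h1 : starRingEnd ℂ (w.embedding x) = w.embedding x := by
    have := RingHom.congr_fun hreal x
    exact this
  have h2 : (w.embedding x) ^ 2 = (d : ℂ) := by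
    rw [← map_pow, hx, map_intCast]
  obtain ⟨r, hr⟩ := Complex.conj_eq_iff_real.1 h1
  rw [hr] at h2
  have h3 : r ^ 2 = (d : ℝ) := by exact_mod_cast h2
  have h4 : (d : ℝ) < 0 := by exact_mod_cast hd
  nlinarith [sq_nonneg r]

theorem signature {d : ℤ} (hd : d < 0) (h2 : finrank ℚ K = 2) (x : K)
    (hx : x ^ 2 = d) : nrRealPlaces K = 0 ∧ nrComplexPlaces K = 1 := by
  have h1 : nrRealPlaces K = 0 := by
    rw [nrRealPlaces_eq_zero_iff]
    exact ⟨not_real hd x hx⟩
  have h3 := card_add_two_mul_card_eq_rank K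
  rw [h1, h2] at h3
  exact ⟨h1, by omega⟩

theorem regulator_one {d : ℤ} (hd : d < 0) (h2 : finrank ℚ K = 2) (x : K)
    (hx : x ^ 2 = d) : regulator K = 1 := by
  classical
  have h3 := signature hd h2 x hx
  have hcard : Fintype.card (InfinitePlace K) = 1 := by
    rw [card_eq_nrRealPlaces_add_nrComplexPlaces, h3.1, h3.2]
  have hrank : Units.rank K = 0 := by
    rw [Units.rank, hcard]
  obtain ⟨w'⟩ : Nonempty (InfinitePlace K) := inferInstance
  have hsub : ∀ a b : InfinitePlace K, a = b := Fintype.card_le_one_iff.1 hcard.le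
  have hemp : IsEmpty {w : InfinitePlace K // w ≠ w'} := ⟨fun w => w.2 (hsub _ _)⟩
  have hemp2 : IsEmpty (Fin (Units.rank K)) := by rw [hrank]; infer_instance
  rw [regulator_eq_det (K := K) w' (Equiv.equivOfIsEmpty _ _), Matrix.det_isEmpty, abs_one]

/-- the residue of the Dedekind zeta function of an imaginary quadratic field -/
theorem residue_imag {d : ℤ} (hd : d < -3) (hs : Squarefree d) (h2 : finrank ℚ K = 2) (x : K)
    (hx : x ^ 2 = d) : dedekindZeta_residue K =
      Real.pi * classNumber K / Real.sqrt |(discr K : ℝ)| := by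
  have h3 := signature (by omega) h2 x hx
  rw [dedekindZeta_residue_def, h3.1, h3.2, regulator_one (by omega) h2 x hx,
    torsionOrder_eq hd hs h2 x hx]
  push_cast
  have : Real.sqrt |(discr K : ℝ)| ≠ 0 := by
    apply Real.sqrt_ne_zero'.2
    have := discr_ne_zero K
    positivity
  field_simp

end Q263.CN
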