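import Mathlib
import Pool.Agent.H45.Lib.Ts3997aac3.Q263.CN.Quad
import Pool.Agent.H45.Lib.Ts3997aac3.Q263.CN.ImQ
import Pool.Agent.H45.Lib.Ts3997aac3.Q261.HalfSum

/-! Dirichlet's class number formula for `ℚ(√-p)`, `p ≡ 3 (mod 4)`. -/

set_option autoImplicit false

namespace Q263.CN

open NumberField Finset Filter Topology HurwitzZeta
open Pool.Agent.H306R2.RZ (js)
open Q261.Rot (S fm fm_apply sin_sum js_mul js_neg_one js_two_sq)

/-- the half sum and the first moment (after the module `Q261.HalfSum`) -/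
theorem S_eq (d : ℕ) (h4 : d % 4 = 3) : (S d : ℝ) = (2 - js 2 d) *
    ∑ r ∈ Icc 1 (d - 1), js (r : ℤ) d * (1 / 2 - (r : ℝ) / d) := by
  obtain ⟨k, hk⟩ : ∃ k, d = 2 * k + 1 := ⟨d / 2, by omega⟩
  have hodd : Odd d := ⟨k, hk⟩
  have hd0 : (d : ℝ) ≠ 0 := by
    have : 0 < d := by omega
    exact_mod_cast this.ne'
  have hSr : (S d : ℝ) = ∑ b ∈ Icc 1 k, js (b : ℤ) d := by
    rw [S]
    have : (d - 1) / 2 = k := by omega
    rw [this]; push_cast; rfl
  have hneg : ∀ r : ℕ, r ≤ d → js ((d - r : ℕ) : ℤ) d = -js (r : ℤ) d := by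
    intro r hr
    rw [Pool.Agent.H987R2.RZ.js_neg d hodd r hr, js_neg_one d h4]; ring
  set Q := ∑ r ∈ Icc 1 (d - 1), js (r : ℤ) d * (1 / 2 - (r : ℝ) / d) with hQdef
  set B := ∑ b ∈ Icc 1 k, js (b : ℤ) d * (b : ℝ) with hB
  -- first expression
  have e1 : Q = (S d : ℝ) - 2 * B / d := by
    have h1 : Icc 1 (d - 1) = Icc 1 k ∪ (Icc 1 k).image (fun b => d - b) := by
      ext r
      simp only [mem_union, mem_Icc, mem_image]
      constructor
      · intro h
        by_cases hrk : r ≤ k
        · left; omega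
        · right; exact ⟨d - r, by omega, by omega⟩
      · rintro (h | ⟨b, h, rfl⟩) <;> omega
    rw [hQdef, h1, sum_union, sum_image]
    · have h2 : ∀ b ∈ Icc 1 k, js ((d - b : ℕ) : ℤ) d * (1 / 2 - ((d - b : ℕ) : ℝ) / d) =
          js (b : ℤ) d * (1 / 2 - (b : ℝ) / d) := by
        intro b hb
        rw [mem_Icc] at hb
        rw [hneg b (by omega), Nat.cast_sub (by omega)]
        field_simp
        ring
      rw [sum_congr rfl h2, hSr, hB, ← sum_add_distrib, mul_sum, sum_div, ← sum_sub_distrib]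
      apply sum_congr rfl
      intro b _
      field_simp
      ring
    · intro a ha b hb hab
      simp only [coe_Icc, Set.mem_Icc] at ha hb
      simp only at hab
      omega
    · rw [disjoint_left]
      intro r hr hr'
      rw [mem_Icc] at hr
      rw [mem_image] at hr'
      obtain ⟨b, hb, rfl⟩ := hr'
      rw [mem_Icc] at hb
      omega
  -- second expression
  have e2 : Q = js 2 d * ((S d : ℝ) - 4 * B / d) := by
    have h1 : Icc 1 (d - 1) = (Icc 1 k).image (fun b => 2 * b) ∪ (Icc 1 k).image (fun b => d - 2 * b) := by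
      ext r
      simp only [mem_union, mem_Icc, mem_image]
      constructor
      · intro h
        rcases Nat.even_or_odd r with ⟨b, hb⟩ | ⟨b, hb⟩
        · left; exact ⟨b, by omega, by omega⟩
        · right; exact ⟨k - b, by omega, by omega⟩
      · rintro (⟨b, h, rfl⟩ | ⟨b, h, rfl⟩) <;> omega
    rw [hQdef, h1, sum_union, sum_image, sum_image]
    · have h2 : ∀ b ∈ Icc 1 k, js ((d - 2 * b : ℕ) : ℤ) d * (1 / 2 - ((d - 2 * b : ℕ) : ℝ) / d) =
          js 2 d * js (b : ℤ) d * (1 / 2 - 2 * (b : ℝ) / d) := by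
        intro b hb
        rw [mem_Icc] at hb
        rw [hneg (2 * b) (by omega), Nat.cast_sub (by omega)]
        push_cast
        rw [js_mul]
        field_simp
        ring
      have h3 : ∀ b ∈ Icc 1 k, js ((2 * b : ℕ) : ℤ) d * (1 / 2 - ((2 * b : ℕ) : ℝ) / d) =
          js 2 d * js (b : ℤ) d * (1 / 2 - 2 * (b : ℝ) / d) := by
        intro b hb
        push_cast
        rw [js_mul]
      rw [sum_congr rfl h2, sum_congr rfl h3, hSr, hB, ← sum_add_distrib, mul_sum, sum_div,
        ← sum_sub_distrib, mul_sum]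
      apply sum_congr rfl
      intro b _
      field_simp
      ring
    · intro a ha b hb hab
      simp only [coe_Icc, Set.mem_Icc] at ha hb
      simp only at hab
      omega
    · intro a ha b hb hab
      simp only at hab
      omega
    · rw [disjoint_left]
      intro r hr hr'
      rw [mem_image] at hr hr'
      obtain ⟨a, ha, rfl⟩ := hr
      obtain ⟨b, hb, hab⟩ := hr'
      rw [mem_Icc] at ha hb
      omega
  have h2sq := js_two_sq d h4
  have e3 : (S d : ℝ) = (2 - js 2 d) * Q := by
    have e4 : js 2 d * Q = (S d : ℝ) - 4 * B / d := by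
      rw [e2, ← mul_assoc, h2sq, one_mul]
    have e5 : 2 * Q = 2 * (S d : ℝ) - 4 * B / d := by rw [e1]; ring
    linarith
  exact e3

/-- the first moment -/
noncomputable def QQ (d : ℕ) : ℝ := ∑ r ∈ Icc 1 (d - 1), js (r : ℤ) d * (1 / 2 - (r : ℝ) / d)

section

variable (p : ℕ) [hpf : Fact p.Prime]

lemma js_prime (k : ℤ) : js k p = ((quadraticChar (ZMod p) (k : ZMod p) : ℤ) : ℝ) := by
  unfold Pool.Agent.H306R2.RZ.js
  rw [← jacobiSym.legendreSym.to_jacobiSym]
  rfl

/-- the value of the `L`-function at `1` -/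
theorem L_one (h4 : p % 4 = 3) :
    DirichletCharacter.LFunction (qc p ℂ : DirichletCharacter ℂ p) 1 =
      ((Real.pi / Real.sqrt p * QQ p : ℝ) : ℂ) := by
  have h2 : p ≠ 2 := by omega
  have hp1 : 1 < p := hpf.out.one_lt
  have hp0 : (0 : ℝ) < p := by exact_mod_cast hpf.out.pos
  have hsq : Real.sqrt p ≠ 0 := (Real.sqrt_pos.2 hp0).ne'
  set G : ℝ → ℂ := fun s =>
    ∑ r ∈ range p, (js (r : ℤ) p : ℂ) * sinZeta (((r : ℝ) / p : ℝ) : UnitAddCircle) s with hG
  have hcont : Continuous G := by
    apply continuous_finsetSum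
    intro r _
    apply Continuous.mul continuous_const
    exact (differentiableAt_sinZeta _).continuous.comp Complex.continuous_ofReal
  have hLc : Continuous (fun s : ℝ => (Real.sqrt p : ℂ) *
      DirichletCharacter.LFunction (qc p ℂ : DirichletCharacter ℂ p) (s : ℂ)) := by
    apply Continuous.mul continuous_const
    exact (DirichletCharacter.differentiable_LFunction (qc_ne_one p ℂ h2)).continuous.comp
      Complex.continuous_ofReal
  have heq : ∀ s : ℝ, 1 < s → G s = (Real.sqrt p : ℂ) *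
      DirichletCharacter.LFunction (qc p ℂ : DirichletCharacter ℂ p) (s : ℂ) := by
    intro s hs
    have hs' : 1 < (s : ℂ).re := by simpa using hs
    have h5 := sin_sum p h4 hpf.out.squarefree hp1 hs
    simp only [hG]
    rw [h5, DirichletCharacter.LFunction_eq_LSeries _ hs', LSeries, Complex.ofReal_mul,
      Complex.ofReal_tsum]
    congr 1
    apply tsum_congr
    intro n
    rw [fm_apply, LSeries.term_def]
    split_ifs with hn
    · subst hn
      have : js ((0 : ℕ) : ℤ) p = 0 := by
        rw [js_prime]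
        simp
      rw [this]; simp
    · rw [js_prime, Complex.ofReal_mul, Complex.ofReal_cpow (Nat.cast_nonneg _),
        Complex.ofReal_neg, Complex.cpow_neg, div_eq_mul_inv]
      congr 1
      rw [qc_apply]
      push_cast
      rfl
  have h1 : G 1 = (Real.sqrt p : ℂ) *
      DirichletCharacter.LFunction (qc p ℂ : DirichletCharacter ℂ p) ((1 : ℝ) : ℂ) := by
    have ht1 : Tendsto G (𝓝[>] 1) (𝓝 (G 1)) := (hcont.tendsto 1).mono_left nhdsWithin_le_nhds
    have ht2 := (hLc.tendsto 1).mono_left (nhdsWithin_le_nhds (s := Set.Ioi (1 : ℝ)))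
    refine tendsto_nhds_unique_of_eventuallyEq ht1 ht2 ?_
    filter_upwards [self_mem_nhdsWithin] with s hs
    exact heq s hs
  have h3 : G 1 = ((Real.pi * QQ p : ℝ) : ℂ) := by
    simp only [hG]
    have h3 : range p = insert 0 (Icc 1 (p - 1)) := by
      ext r
      simp only [mem_range, mem_insert, mem_Icc]
      omega
    have h00 : js ((0 : ℕ) : ℤ) p = 0 := by
      rw [js_prime]
      simp
    rw [h3, sum_insert (by simp), h00, Complex.ofReal_zero, zero_mul, zero_add, QQ,
      Complex.ofReal_mul, Complex.ofReal_sum, mul_sum]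
    apply sum_congr rfl
    intro r hr
    rw [mem_Icc] at hr
    have hr0 : (0 : ℝ) < (r : ℝ) / p := by
      have : (0 : ℝ) < r := by exact_mod_cast hr.1
      positivity
    have hr1 : (r : ℝ) / p < 1 := by
      rw [div_lt_one hp0]
      exact_mod_cast (by omega : r < p)
    rw [Complex.ofReal_one, Pool.Agent.H916R2.sinZeta_one hr0 hr1]
    push_cast
    ring
  rw [h3, Complex.ofReal_one] at h1
  have hsqc : (Real.sqrt p : ℂ) ≠ 0 := by exact_mod_cast hsq
  apply mul_left_cancel₀ hsqc
  rw [← h1]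
  rw [← Complex.ofReal_mul]
  congr 1
  field_simp

end

/-! ## Isomorphic quadratic fields -/

section iso

open Module

variable {K₁ K₂ : Type*} [Field K₁] [NumberField K₁] [Field K₂] [NumberField K₂]

theorem iso_quadratic {d : ℤ} (hd : d ≠ 1) (hs : Squarefree d) (h1 : finrank ℚ K₁ = 2)
    (h2 : finrank ℚ K₂ = 2) (x : K₁) (hx : x ^ 2 = d) (y : K₂) (hy : y ^ 2 = d) :
    Nonempty (K₁ ≃+* K₂) := by
  obtain ⟨b, h0, h1'⟩ := exists_basis hd hs h1 x hx
  set f : K₁ →ₗ[ℚ] K₂ := b.constr ℚ ![1, y] with hf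
  have hf0 : f 1 = 1 := by
    rw [← h0, hf, Basis.constr_basis]; rfl
  have hfx : f x = y := by
    rw [← h1', hf, Basis.constr_basis]; rfl
  have hfval : ∀ p q : ℚ, f ((p : K₁) + q * x) = (p : K₂) + q * y := by
    intro p q
    have e1 : (p : K₁) + q * x = p • (1 : K₁) + q • x := by
      rw [Rat.smul_def, Rat.smul_def, mul_one]
    rw [e1, map_add, map_smul, map_smul, hf0, hfx, Rat.smul_def, Rat.smul_def, mul_one]
  have hmul : ∀ α β : K₁, f (α * β) = f α * f β := by
    intro α β
    obtain ⟨p, q, rfl⟩ := ex_coord b h0 h1' α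
    obtain ⟨p', q', rfl⟩ := ex_coord b h0 h1' β
    have e1 : ((p : K₁) + q * x) * ((p' : K₁) + q' * x) =
        ((p * p' + d * q * q' : ℚ) : K₁) + ((p * q' + q * p' : ℚ) : K₁) * x := by
      push_cast
      linear_combination (q * q' : K₁) * hx
    rw [e1, hfval, hfval, hfval]
    push_cast
    linear_combination -(q * q' : K₂) * hy
  let F : K₁ →+* K₂ :=
    { toFun := f
      map_one' := hf0
      map_mul' := hmul
      map_zero' := map_zero f
      map_add' := map_add f }
  have hinj : Function.Injective F := F.injective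
  have hinj' : Function.Injective f := hinj
  have hsurj : Function.Surjective f :=
    (LinearMap.injective_iff_surjective_of_finrank_eq_finrank (h1.trans h2.symm)).1 hinj'
  exact ⟨RingEquiv.ofBijective F ⟨hinj, hsurj⟩⟩

theorem classNumber_iso (e : K₁ ≃+* K₂) : classNumber K₁ = classNumber K₂ := by
  unfold classNumber
  have e2 : (𝓞 K₁) ≃+* (𝓞 K₂) := RingOfIntegers.mapRingEquiv e
  exact Fintype.card_congr (ClassGroup.mulEquiv e2).toEquiv

end iso

section

variable (p : ℕ) [hpf : Fact p.Prime] (L : Type) [Field L] [NumberField L]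
  [IsCyclotomicExtension {p} ℚ L]

open Module in
lemma finrank_QF (h2 : p ≠ 2) : finrank ℚ (QF p L) = 2 := by
  have hp := hpf.out
  set e : ℤ := quadraticChar (ZMod p) (-1) with he
  have he1 : e = 1 ∨ e = -1 := quadraticChar_dichotomy (neg_ne_zero.mpr one_ne_zero)
  have hsq : ∀ q : ℚ, q ^ 2 ≠ ((e * p : ℤ) : ℚ) := by
    intro q
    apply not_sq
    · rcases he1 with h | h <;> rw [h] <;> have := hp.one_lt <;> omega
    · rcases he1 with h | h <;> rw [h]
      · rw [one_mul]
        exact Int.squarefree_natCast.2 hp.squarefree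
      · rw [neg_one_mul]
        have := Int.squarefree_natCast.2 hp.squarefree
        rw [← Int.squarefree_natAbs] at this ⊢
        rwa [Int.natAbs_neg]
  have ht := tau_sq p L h2
  have hirr : Irreducible (Polynomial.X ^ 2 - Polynomial.C ((e * p : ℤ) : ℚ)) :=
    X_pow_sub_C_irreducible_of_prime Nat.prime_two hsq
  have hmon : (Polynomial.X ^ 2 - Polynomial.C ((e * p : ℤ) : ℚ)).Monic :=
    Polynomial.monic_X_pow_sub_C _ two_ne_zero
  have hroot : Polynomial.aeval (tau p L) (Polynomial.X ^ 2 - Polynomial.C ((e * p : ℤ) : ℚ)) = 0 := by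
    simp only [map_sub, map_pow, Polynomial.aeval_X, Polynomial.aeval_C]
    rw [ht, ← he]
    push_cast
    simp
  have hmin := minpoly.eq_of_irreducible_of_monic hirr hroot hmon
  have hint : IsIntegral ℚ (tau p L) := ⟨_, hmon, by
    rw [← Polynomial.aeval_def]; exact hroot⟩
  unfold QF
  rw [IntermediateField.adjoin.finrank hint, ← hmin, Polynomial.natDegree_X_pow_sub_C]

end

theorem class_number_formula_aux (p : ℕ) [Fact p.Prime] (h4 : p % 4 = 3) (h3 : 3 < p)
    (L : Type) [Field L] [NumberField L] [IsCyclotomicExtension {p} ℚ L]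
    (K : Type*) [Field K] [NumberField K] (hK : Module.finrank ℚ K = 2)
    (x : K) (hx : x ^ 2 = -(p : K)) :
    (2 - legendreSym p 2) * (classNumber K : ℤ) =
      ∑ k ∈ Icc 1 ((p - 1) / 2), legendreSym p (k : ℤ) := by
  have hp : p.Prime := Fact.out
  have h2 : p ≠ 2 := by omega
  have hp0 : (0 : ℝ) < p := by exact_mod_cast hp.pos
  have hsf : Squarefree (-(p : ℤ)) := by
    have := Int.squarefree_natCast.2 hp.squarefree
    rw [← Int.squarefree_natAbs] at this ⊢
    rwa [Int.natAbs_neg]
  -- the square root in the cyclotomic field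
  have htau : (tau p L) ^ 2 = ((-(p : ℤ) : ℤ) : L) := by
    rw [tau_sq p L h2]
    have h5 : quadraticChar (ZMod p) (-1) = -1 := by
      rw [quadraticChar_neg_one (by rwa [ZMod.ringChar_zmod_n]), ZMod.card,
        ZMod.χ₄_nat_three_mod_four h4]
    rw [h5]
    push_cast
    ring
  have hmem : tau p L ∈ QF p L := IntermediateField.mem_adjoin_simple_self ℚ _
  set y : QF p L := ⟨tau p L, hmem⟩ with hy
  have hysq : y ^ 2 = ((-(p : ℤ) : ℤ) : QF p L) := by
    apply Subtype.ext
    push_cast
    rw [hy]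
    simp only
    rw [htau]
    push_cast
    ring
  have hxsq : x ^ 2 = ((-(p : ℤ) : ℤ) : K) := by rw [hx]; push_cast; ring
  obtain ⟨e⟩ := iso_quadratic (K₁ := K) (K₂ := QF p L) (by omega) hsf hK (finrank_QF p L h2) x hxsq
    y hysq
  rw [classNumber_iso e]
  -- the residue
  have h5 := residue_QF p L h2
  rw [L_one p h4] at h5
  have h6 : dedekindZeta_residue (QF p L) = Real.pi / Real.sqrt p * QQ p := by exact_mod_cast h5
  rw [residue_imag (by omega) hsf (finrank_QF p L h2) y hysq,
    discr_quadratic (by omega) hsf (finrank_QF p L h2) y hysq, if_pos (by omega)] at h6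
  have h7 : Real.sqrt |(((-(p : ℤ) : ℤ)) : ℝ)| = Real.sqrt p := by
    congr 1
    push_cast
    rw [abs_neg, abs_of_pos hp0]
  rw [h7] at h6
  have hsq : Real.sqrt p ≠ 0 := (Real.sqrt_pos.2 hp0).ne'
  have h8 : (classNumber (QF p L) : ℝ) = QQ p := by
    have hpi := Real.pi_ne_zero
    field_simp at h6
    exact h6
  have h9 := S_eq p h4
  have h10 : (S p : ℝ) = (2 - js 2 p) * classNumber (QF p L) := by
    rw [h9, h8, QQ]
  have h11 : S p = ∑ k ∈ Icc 1 ((p - 1) / 2), legendreSym p (k : ℤ) := by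
    unfold S
    refine Finset.sum_congr rfl fun k _ => ?_
    rw [jacobiSym.legendreSym.to_jacobiSym]
  rw [← h11]
  have h12 : js 2 p = ((legendreSym p 2 : ℤ) : ℝ) := by
    rw [js_prime]; rfl
  rw [h12] at h10
  have h13 : ((S p : ℤ) : ℝ) = (((2 - legendreSym p 2) * (classNumber (QF p L) : ℤ) : ℤ) : ℝ) := by
    rw [h10]; push_cast; ring
  exact_mod_cast h13.symm

/-- **Dirichlet's class number formula** for `K = ℚ(√-p)`, `p ≡ 3 (mod 4)`, `p > 3`:
`(2 - (2/p)) h(K) = ∑_{0 < k < p/2} (k/p)`. -/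
theorem class_number_formula (p : ℕ) [Fact p.Prime] (h4 : p % 4 = 3) (h3 : 3 < p)
    (K : Type*) [Field K] [NumberField K] (hK : Module.finrank ℚ K = 2)
    (x : K) (hx : x ^ 2 = -(p : K)) :
    (2 - legendreSym p 2) * (classNumber K : ℤ) =
      ∑ k ∈ Icc 1 ((p - 1) / 2), legendreSym p (k : ℤ) := by
  have hne : NeZero ((p : ℕ) : ℚ) := ⟨by exact_mod_cast (Fact.out : p.Prime).ne_zero⟩
  have hcyc : IsCyclotomicExtension {p} ℚ (CyclotomicField p ℚ) :=
    CyclotomicField.isCyclotomicExtension p ℚ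
  have hnf : NumberField (CyclotomicField p ℚ) := IsCyclotomicExtension.numberField {p} ℚ _
  exact class_number_formula_aux p h4 h3 (CyclotomicField p ℚ) K hK x hx

end Q263.CN
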